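import Pool.Agent.helper63.Dg4.Spec
import Pool.Agent.helper63.Diag.Upper

/-!
# Project dg4, rows ENQ, HEX, CHC, RE1
-/

namespace Pool.Agent.helper63.Dg4

open Encodable Pool.Agent.helper63.Diag

theorem RE1 : RE1_stmt := by
  rintro A ⟨D, hD, hA⟩
  have hres : Primrec (fun k : ℕ => res (fun _ => 0) k) :=
    Primrec.list_map Primrec.list_range (Primrec₂.const 0)
  have h1 : PrimrecPred (fun p : (ℕ × ℕ) × ℕ => D (res (fun _ => 0) p.2) p.1) :=
    hD.comp (hres.comp Primrec.snd) Primrec.fst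
  classical
  have h2 : Computable (fun p : (ℕ × ℕ) × ℕ => decide (D (res (fun _ => 0) p.2) p.1)) :=
    h1.computablePred.decide
  have h3 : Partrec (fun a : ℕ × ℕ =>
      Nat.rfind fun n => Part.some (decide (D (res (fun _ => 0) n) a))) :=
    Partrec.rfind (p := fun a n => Part.some (decide (D (res (fun _ => 0) n) a))) h2.partrec
  refine h3.dom_re.of_eq fun a => ?_
  rw [Nat.rfind_dom, hA a]
  constructor
  · rintro ⟨n, hn, -⟩
    refine ⟨n, ?_⟩
    simpa using hn
  · rintro ⟨n, hn⟩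
    exact ⟨n, by simpa using hn, fun _ => trivial⟩

theorem CHC : CHC_stmt := by
  have h1 : Countable {E : ℕ → ℕ → Prop | REPred fun p : ℕ × ℕ => E p.1 p.2} :=
    countable_ceer.to_subtype
  let f : HC → {E : ℕ → ℕ → Prop | REPred fun p : ℕ × ℕ => E p.1 p.2} :=
    fun c => ⟨c.E, RE1 _ c.ce⟩
  have hf : Function.Injective f := by
    rintro ⟨E, a, b, c, d⟩ ⟨E', a', b', c', d'⟩ h
    simp only [f, Subtype.mk.injEq] at h
    subst h
    rfl
  exact hf.countable

theorem ENQ_true : CE (fun _ : ℕ × ℕ × ℕ => True) := by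
  have h : PrimrecPred (fun _ : ℕ × ℕ × ℕ => (0 : ℕ) = 0) :=
    Primrec.eq.comp (Primrec.const 0) (Primrec.const 0)
  exact S1.prim (h.of_eq fun a => by simp)

/-- the graph of a computable function -/
theorem ENQ_graph {h : ℕ → ℕ} (hh : Computable h) : CE (fun p : ℕ × ℕ => h p.1 = p.2) := by
  apply S1.of_re
  have h1 : Computable (fun p : ℕ × ℕ => h p.1 == p.2) :=
    Primrec.beq.to_comp.comp (hh.comp Computable.fst) Computable.snd
  have h2 : ComputablePred (fun p : ℕ × ℕ => h p.1 = p.2) := by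
    rw [computablePred_iff_computable_decide]
    exact h1.of_eq fun p => by simp [beq_eq_decide]
  exact h2.to_re

theorem HEX (hENG : ENG_stmt) : HEX_stmt := by
  obtain ⟨E', he, hce, hne, hR, -⟩ := hENG (fun _ _ _ => True) ENQ_true (fun j => by
    rintro ⟨g, -, hg⟩
    exact hg 0 trivial)
  refine ⟨⟨E', he, hce, ⟨0, 1, hne⟩, ?_⟩⟩
  rintro ⟨h, hh, hd⟩
  let W : ℕ × ℕ × List ℕ → Prop := fun t => ∃ z, h t.1 = z ∧
    (z < t.2.2.length ∧ t.2.2.getD z 0 = t.2.1)
  have hW : CE W := by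
    refine S1.ex (A := fun (t : ℕ × ℕ × List ℕ) (z : ℕ) => h t.1 = z ∧
      (z < t.2.2.length ∧ t.2.2.getD z 0 = t.2.1)) ?_
    refine S1.and ?_ ?_
    · exact (ENQ_graph hh).comp (f := fun p : (ℕ × ℕ × List ℕ) × ℕ => (p.1.1, p.2))
        (Primrec.pair (Primrec.fst.comp Primrec.fst) Primrec.snd)
    · refine S1.prim (PrimrecPred.and ?_ ?_)
      · exact Primrec.nat_lt.comp Primrec.snd (Primrec.list_length.comp
          (Primrec.snd.comp (Primrec.snd.comp Primrec.fst)))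
      · exact Primrec.eq.comp ((Primrec.list_getD 0).comp
          (Primrec.snd.comp (Primrec.snd.comp Primrec.fst)) Primrec.snd)
          (Primrec.fst.comp (Primrec.snd.comp Primrec.fst))
  obtain ⟨ℓ, -, ⟨a, γ, -, hWa, hla, hz⟩ | ⟨c, hc, hcl, hnW⟩⟩ := hR W hW
  · obtain ⟨z, hz1, hz2, hz3⟩ := hWa
    subst hz1
    apply hd ℓ
    have h1 := hz _ hz2
    have h2 : γ.getD (h ℓ) 0 = a := hz3
    rw [h2] at h1
    exact he.trans h1 (he.symm hla)
  · have h1 := hc.1 (h ℓ)
    rcases Nat.lt_succ_iff_lt_or_eq.1 h1 with h2 | h2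
    · refine hnW _ h2 (h ℓ + 1) ⟨h ℓ, rfl, ?_, ?_⟩
      · simp
      · exact res_getD c (Nat.lt_succ_self _)
    · exact hd ℓ (hcl _ h2)

theorem ENQ (hENG : ENG_stmt) : ENQ_stmt := by
  intro q
  have hF : CE (fun p : ℕ × ℕ × ℕ => q.ab.getD p.1 0 = 2 → (q.ce p.1).E p.2.2 p.2.1) := by
    have h1 : CE (fun p : ℕ × ℕ × ℕ => ¬ q.ab.getD p.1 0 = 2) := by
      refine S1.prim (PrimrecPred.not ?_)
      exact Primrec.eq.comp ((Primrec.list_getD 0).comp (Primrec.const q.ab) Primrec.fst)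
        (Primrec.const 2)
    have h2 : CE (fun p : ℕ × ℕ × ℕ => ∃ i < q.ab.length, (p.1 = i ∧ (q.ce i).E p.2.2 p.2.1)) := by
      refine S1.orlt (A := fun i (p : ℕ × ℕ × ℕ) => p.1 = i ∧ (q.ce i).E p.2.2 p.2.1) _
        fun i _ => S1.and ?_ ?_
      · exact S1.prim (Primrec.eq.comp Primrec.fst (Primrec.const i))
      · exact (q.ce i).ce.comp (f := fun p : ℕ × ℕ × ℕ => (p.2.2, p.2.1))
          (Primrec.pair (Primrec.snd.comp Primrec.snd) (Primrec.fst.comp Primrec.snd))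
    refine (h1.or h2).of_iff fun p => ?_
    constructor
    · rintro (h | ⟨i, -, h, h'⟩) h3
      · exact absurd h3 h
      · rw [h]
        exact h'
    · intro h
      by_cases h3 : q.ab.getD p.1 0 = 2
      · refine Or.inr ⟨p.1, ?_, rfl, h h3⟩
        by_contra h4
        rw [List.getD_eq_getElem?_getD, List.getElem?_eq_none (not_lt.1 h4)] at h3
        simp at h3
      · exact Or.inl h3
  obtain ⟨E', he, hce, hne, hR, hQ⟩ := hENG
    (fun j y z => q.ab.getD j 0 = 2 → (q.ce j).E z y) hF (fun j => by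
      rintro ⟨g, hg, hgd⟩
      by_cases h3 : q.ab.getD j 0 = 2
      · exact (q.ce j).hard ⟨g, hg, fun x hx => hgd x fun _ => hx⟩
      · exact hgd 0 fun h => absurd h h3)
  refine ⟨E', ⟨he, RE1 _ hce⟩, hne, hR, fun κ hκ => ?_⟩
  have h := hQ κ
  simpa only [hκ, forall_const] using h

end Pool.Agent.helper63.Dg4
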